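import Mathlib

set_option autoImplicit false

open MeasureTheory
open scoped MatrixGroups

namespace Pool.Agent.H130Z.NS

/-- Right action of `SL(2,ℝ)` on row vectors. -/
def act (g : SL(2, ℝ)) (v : ℝ × ℝ) : ℝ × ℝ :=
  (v.1 * g 0 0 + v.2 * g 1 0, v.1 * g 0 1 + v.2 * g 1 1)

/-- The matrix sending the slope `x / y = σ` to `θ + δ ^ 2 * σ`. -/
noncomputable def hm (θ δ : ℝ) (hδ : δ ≠ 0) : SL(2, ℝ) :=
  ⟨!![δ, 0; θ / δ, 1 / δ], by rw [Matrix.det_fin_two_of]; field_simp; simp⟩

theorem act_mul (g h : SL(2, ℝ)) (v : ℝ × ℝ) : act (g * h) v = act h (act g v) := by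
  simp only [act, Matrix.SpecialLinearGroup.coe_mul, Matrix.mul_apply, Fin.sum_univ_two]
  ext <;> simp <;> ring

theorem act_one (v : ℝ × ℝ) : act 1 v = v := by
  simp [act]

theorem act_smul (g : SL(2, ℝ)) (s : ℝ) (v : ℝ × ℝ) : act g (s • v) = s • act g v := by
  simp only [act]
  ext <;> simp <;> ring

theorem det_eq (g : SL(2, ℝ)) : g 0 0 * g 1 1 - g 0 1 * g 1 0 = 1 := by
  have := g.det_coe
  rwa [Matrix.det_fin_two] at this

theorem continuous_act (g : SL(2, ℝ)) : Continuous (act g) := by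
  unfold act; fun_prop

theorem measurePreserving_act (g : SL(2, ℝ)) : MeasurePreserving (act g) volume volume := by
  let L : (ℝ × ℝ) →ₗ[ℝ] (ℝ × ℝ) :=
    Matrix.toLin (Module.Basis.finTwoProd ℝ) (Module.Basis.finTwoProd ℝ) !![g 0 0, g 1 0; g 0 1, g 1 1]
  have hL : (L : ℝ × ℝ → ℝ × ℝ) = act g := by
    funext v
    simp only [L, Matrix.toLin_finTwoProd_apply, act]
    ext <;> simp <;> ring
  have hd : LinearMap.det L = 1 := by
    simp only [L, LinearMap.det_toLin, Matrix.det_fin_two_of]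
    have := det_eq g
    linarith
  refine ⟨(continuous_act g).measurable, ?_⟩
  rw [← hL, Measure.map_linearMap_addHaar_eq_smul_addHaar _ (by rw [hd]; exact one_ne_zero), hd]
  simp

end Pool.Agent.H130Z.NS
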